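import Pool.Agent.R326.GP.Cut

/-!
# Comparison of the counting functions
-/

set_option autoImplicit false

namespace Pool.Agent.R326.GP

open Finset Filter

lemma cnt_eq (A : Set ℕ) [DecidablePred (fun n => n ∈ A)] (N : ℕ) :
    cnt A N = ((Icc 1 N).filter (fun n => n ∈ A)).card := by
  unfold cnt
  congr

lemma psi_le_sq {n : ℕ} (hn : n ≠ 0) : ∃ b, b ^ 2 ∣ n ∧ psi n ≤ b ^ 2 := by
  obtain ⟨s, b, h, hs⟩ := Nat.sq_mul_squarefree n
  refine ⟨b, ⟨s, h.symm⟩, ?_⟩
  have h1 : s ∣ n := ⟨b ^ 2, by rw [← h]; ring⟩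
  have h2 : s ≤ rad n := by
    have h3 : rad s = s := Nat.prod_primeFactors_of_squarefree hs
    calc s = rad s := h3.symm
      _ ≤ rad n := by
        unfold rad
        apply Finset.prod_le_prod_of_subset_of_one_le' (Nat.primeFactors_mono h1 hn)
        intro p hp _
        exact (Nat.prime_of_mem_primeFactors hp).pos
  apply Nat.le_of_mul_le_mul_right _ (rad_pos n)
  calc psi n * rad n = n := psi_mul n
    _ = b ^ 2 * s := h.symm
    _ ≤ b ^ 2 * rad n := Nat.mul_le_mul_left _ h2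

lemma count_GX {X : Set ℕ} (hX : GPFree X) (hX0 : ∀ x ∈ X, 0 < x) {T W : ℕ} (hT : 1 ≤ T)
    (hW : W = ((T ^ 2) ^ 6) ^ (T ^ 2)) (N : ℕ) :
    (cnt (G \ X) N : ℝ) ≤ (W : ℝ) ^ 2 * cnt (E X) N + N / T := by
  classical
  have h1 : (Icc 1 N).filter (fun n => n ∈ G \ X) ⊆
      (((Icc 1 N).filter (fun n => n ∈ E X)) ×ˢ ((Icc 1 W) ×ˢ (Icc 1 W))).image
        (fun t => t.1 * t.2.1 / t.2.2) ∪
      (Ioc 0 N).filter (fun z => ∃ a, T < a ∧ a ^ 2 ∣ z) := by
    intro n hn
    rw [Finset.mem_filter, Finset.mem_Icc] at hn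
    obtain ⟨hn1, hnG, hnX⟩ := hn
    rw [Finset.mem_union]
    by_cases hpsi : psi n ≤ T ^ 2
    · left
      obtain ⟨u, huE, B, D, hB, hBW, hD, hDW, h, hun⟩ := tree hX (fun x hx => (hX0 x hx).ne')
        (L := T ^ 2) (Nat.one_le_pow _ _ hT) (T ^ 2) le_rfl n hnG hnX hpsi
      rw [Finset.mem_image]
      refine ⟨(u, D, B), ?_, ?_⟩
      · rw [Finset.mem_product, Finset.mem_product, Finset.mem_filter, Finset.mem_Icc,
          Finset.mem_Icc, Finset.mem_Icc]
        have hu0 : u ≠ 0 := huE.1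
        rw [hW]
        exact ⟨⟨⟨by omega, by omega⟩, huE⟩, ⟨hD, hDW⟩, ⟨hB, hBW⟩⟩
      · change u * D / B = n
        rw [h]
        exact Nat.mul_div_cancel _ hB
    · right
      obtain ⟨b, hb1, hb2⟩ := psi_le_sq (by omega : n ≠ 0)
      rw [Finset.mem_filter, Finset.mem_Ioc]
      refine ⟨by omega, b, ?_, hb1⟩
      by_contra hcon
      have : b ^ 2 ≤ T ^ 2 := Nat.pow_le_pow_left (by omega) 2
      omega
  have h2 := (Finset.card_le_card h1).trans (Finset.card_union_le _ _)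
  have h3 := Finset.card_image_le (s := (((Icc 1 N).filter (fun n => n ∈ E X)) ×ˢ
    ((Icc 1 W) ×ˢ (Icc 1 W)))) (f := (fun t => t.1 * t.2.1 / t.2.2))
  rw [Finset.card_product, Finset.card_product, Nat.card_Icc] at h3
  have h4 := sieve0 N T (by omega)
  have h5 : cnt (G \ X) N ≤ cnt (E X) N * (W * W) +
      ((Ioc 0 N).filter (fun z => ∃ a, T < a ∧ a ^ 2 ∣ z)).card := by
    rw [cnt_eq (G \ X), cnt_eq (E X)]
    have e : W + 1 - 1 = W := rfl
    rw [e] at h3
    refine h2.trans ?_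
    apply Nat.add_le_add
    · exact h3
    · exact le_of_eq (by congr)
  have h6 : (cnt (G \ X) N : ℝ) ≤ cnt (E X) N * (W * W) +
      (((Ioc 0 N).filter (fun z => ∃ a, T < a ∧ a ^ 2 ∣ z)).card : ℝ) := by exact_mod_cast h5
  have h7 : (((Ioc 0 N).filter (fun z => ∃ a, T < a ∧ a ^ 2 ∣ z)).card : ℝ) ≤ (N : ℝ) / T := by
    convert h4
  nlinarith

lemma count_XG {X : Set ℕ} (hX : GPFree X) {T : ℕ} (hT : 1 ≤ T) (N : ℕ) :
    (cnt (X \ G) N : ℝ) ≤ 2 * T * cnt (G \ X) N + N / T := by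
  classical
  have h1 : (Icc 1 N).filter (fun n => n ∈ X \ G) ⊆
      (((Icc 1 T) ×ˢ ((Icc 1 N).filter (fun n => n ∈ G \ X))).image (fun t => t.1 * t.2) ∪
      ((Icc 1 T) ×ˢ ((Icc 1 N).filter (fun n => n ∈ G \ X))).image (fun t => t.1 ^ 2 * t.2)) ∪
      (Ioc 0 N).filter (fun z => ∃ a, T < a ∧ a ^ 2 ∣ z) := by
    intro n hn
    rw [Finset.mem_filter, Finset.mem_Icc] at hn
    obtain ⟨hn1, hnX, hnG⟩ := hn
    obtain ⟨c, hc0, hc, h1, h2, h3⟩ := exists_canonical (by omega : n ≠ 0)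
    have hc2 := h3 hnG
    rw [Finset.mem_union]
    by_cases hcT : T < c
    · right
      rw [Finset.mem_filter, Finset.mem_Ioc]
      exact ⟨by omega, c, hcT, hc⟩
    · left
      rw [Finset.mem_union]
      obtain ⟨k, hk⟩ := hc
      have hc0' : 0 < c := by omega
      have hk0 : 0 < k := by
        rcases Nat.eq_zero_or_pos k with h0 | h0
        · rw [h0, mul_zero] at hk; omega
        · exact h0
      have e1 : n / c = c * k := by
        rw [hk, show c ^ 2 * k = c * (c * k) by ring, Nat.mul_div_cancel_left _ hc0']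
      have e2 : n / c ^ 2 = k := by
        rw [hk, Nat.mul_div_cancel_left _ (by positivity)]
      rw [e1] at h1
      rw [e2] at h2
      have hlt1 : k < c * k := by nlinarith
      have hlt2 : c * k < n := by rw [hk]; nlinarith
      by_cases hkX : k ∈ X
      · left
        have hckX : c * k ∉ X := fun hckX =>
          hX k hkX (c * k) hckX n hnX hlt1 hlt2 (by rw [hk]; ring)
        rw [Finset.mem_image]
        refine ⟨(c, c * k), ?_, ?_⟩
        · rw [Finset.mem_product, Finset.mem_Icc, Finset.mem_filter, Finset.mem_Icc]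
          exact ⟨⟨hc0', by simpa using hcT⟩, ⟨by simp only []; omega, by simp only []; omega⟩,
            h1, hckX⟩
        · simp only []
          rw [hk]; ring
      · right
        rw [Finset.mem_image]
        refine ⟨(c, k), ?_, ?_⟩
        · rw [Finset.mem_product, Finset.mem_Icc, Finset.mem_filter, Finset.mem_Icc]
          exact ⟨⟨hc0', by simpa using hcT⟩, ⟨hk0, by simp only []; omega⟩, h2, hkX⟩
        · simp only []
          rw [hk]
  have h2 := (Finset.card_le_card h1).trans (Finset.card_union_le _ _)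
  have h2' := Finset.card_union_le
    (((Icc 1 T) ×ˢ ((Icc 1 N).filter (fun n => n ∈ G \ X))).image (fun t => t.1 * t.2))
    (((Icc 1 T) ×ˢ ((Icc 1 N).filter (fun n => n ∈ G \ X))).image (fun t => t.1 ^ 2 * t.2))
  have h3 := Finset.card_image_le (s := ((Icc 1 T) ×ˢ ((Icc 1 N).filter (fun n => n ∈ G \ X))))
    (f := (fun t => t.1 * t.2))
  have h3' := Finset.card_image_le (s := ((Icc 1 T) ×ˢ ((Icc 1 N).filter (fun n => n ∈ G \ X))))
    (f := (fun t => t.1 ^ 2 * t.2))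
  rw [Finset.card_product, Nat.card_Icc, Nat.add_sub_cancel] at h3 h3'
  have h4 := sieve0 N T (by omega)
  have h5 : cnt (X \ G) N ≤ (T * cnt (G \ X) N + T * cnt (G \ X) N) +
      ((Ioc 0 N).filter (fun z => ∃ a, T < a ∧ a ^ 2 ∣ z)).card := by
    rw [cnt_eq (G \ X), cnt_eq (X \ G)]
    refine h2.trans ?_
    apply Nat.add_le_add
    · exact h2'.trans (Nat.add_le_add h3 h3')
    · exact le_of_eq (by congr)
  have h6 : (cnt (X \ G) N : ℝ) ≤ (T * cnt (G \ X) N + T * cnt (G \ X) N) +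
      (((Ioc 0 N).filter (fun z => ∃ a, T < a ∧ a ^ 2 ∣ z)).card : ℝ) := by exact_mod_cast h5
  have h7 : (((Ioc 0 N).filter (fun z => ∃ a, T < a ∧ a ^ 2 ∣ z)).card : ℝ) ≤ (N : ℝ) / T := by
    convert h4
  linarith

lemma cnt_le_add (X : Set ℕ) (N : ℕ) : cnt X N ≤ cnt G N + cnt (X \ G) N := by
  classical
  rw [cnt_eq (X \ G), cnt_eq X, cnt_eq G]
  refine le_trans ?_ (Finset.card_union_le _ _)
  apply Finset.card_le_card
  intro z hz
  rw [Finset.mem_filter] at hz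
  rw [Finset.mem_union, Finset.mem_filter, Finset.mem_filter]
  by_cases hG : z ∈ G
  · exact Or.inl ⟨hz.1, hG⟩
  · exact Or.inr ⟨hz.1, hz.2, hG⟩

lemma count_X {X : Set ℕ} (hX : GPFree X) (hX0 : ∀ x ∈ X, 0 < x) {T W : ℕ} (hT : 1 ≤ T)
    (hW : W = (((T ^ 2) ^ 2) ^ 6) ^ ((T ^ 2) ^ 2)) (N : ℕ) :
    (cnt X N : ℝ) ≤ cnt G N + 3 * N / T + 2 * T * W ^ 2 * cnt (E X) N := by
  have h1 : (cnt X N : ℝ) ≤ cnt G N + cnt (X \ G) N := by exact_mod_cast cnt_le_add X N
  have h2 := count_XG hX hT N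
  have h3 := count_GX hX hX0 (T := T ^ 2) (Nat.one_le_pow _ _ hT) hW N
  have hT0 : (0 : ℝ) < T := by exact_mod_cast hT
  have h4 : 2 * (T : ℝ) * cnt (G \ X) N ≤
      2 * T * ((W : ℝ) ^ 2 * cnt (E X) N + N / ((T ^ 2 : ℕ) : ℝ)) :=
    mul_le_mul_of_nonneg_left h3 (by positivity)
  have h5 : 2 * (T : ℝ) * ((W : ℝ) ^ 2 * cnt (E X) N + N / ((T ^ 2 : ℕ) : ℝ)) =
      2 * T * W ^ 2 * cnt (E X) N + 2 * N / T := by
    push_cast
    field_simp
  have h6 : 3 * (N : ℝ) / T = 2 * N / T + N / T := by ring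
  linarith

end Pool.Agent.R326.GP
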