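import Pool.Agent.R326.GP.Glue

/-!
# Improvement at a cut, counting of the missing elements
-/

set_option autoImplicit false

namespace Pool.Agent.R326.GP

open Finset Filter

lemma GPFree.mono {A B : Set ℕ} (h : A ⊆ B) (hB : GPFree B) : GPFree A :=
  fun a ha b hb c hc => hB a (h ha) b (h hb) c (h hc)

/-- the comparison set at the cut -/
def Y (X : Set ℕ) (K N : ℕ) : Set ℕ :=
  {z | ((z ∈ X ∧ z ≤ N) ∨ (z ∈ E X ∧ N - N / K < z ∧ z ≤ N)) ∧
    ¬ (N - N / K < z ∧ ∃ a, K ≤ a ∧ a ^ 2 ∣ z)}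

lemma Y_gpfree {X : Set ℕ} (hX : GPFree X) (hX0 : ∀ x ∈ X, 0 < x) {K N : ℕ} (hK : 2 ≤ K) :
    GPFree (Y X K N) := by
  intro x hx y hy z hz hxy hyz h
  have hx0 : x ≠ 0 := by
    rcases hx.1 with h1 | h1
    · exact (hX0 x h1.1).ne'
    · exact h1.1.1
  have hzN : z ≤ N := by
    rcases hz.1 with h1 | h1
    · exact h1.2
    · exact h1.2.2
  have hyM : y ≤ N - N / K := by
    by_contra hlt
    push Not at hlt
    obtain ⟨a, b, hb, hba, h1, h2, h3⟩ := ratio hx0 hxy hyz h
    have haK : a < K := by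
      by_contra hcon
      exact hz.2 ⟨by omega, a, by omega, h3⟩
    obtain ⟨s, hs⟩ := Nat.exists_eq_add_of_le hyz.le
    obtain ⟨K', rfl⟩ := Nat.exists_eq_add_of_le' hK
    have hq : (K' + 2) * (N / (K' + 2)) ≤ N := Nat.mul_div_le N (K' + 2)
    generalize N / (K' + 2) = q at *
    have e1 : z ≤ s * a := by
      have e2 : z * (b + 1) ≤ z * a := Nat.mul_le_mul_left z hba
      have e3 : z * a = y * a + s * a := by rw [hs]; ring
      rw [Nat.mul_add, ← h1] at e2
      omega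
    have e4 : s * a ≤ s * (K' + 1) := Nat.mul_le_mul_left s (by omega)
    have e5 : s * (K' + 1) = s * K' + s := by ring
    have e6 : s ≤ q := by omega
    have e7 : s * K' ≤ q * K' := Nat.mul_le_mul_right K' e6
    have e8 : (K' + 2) * q = q * K' + 2 * q := by ring
    omega
  have hyX : y ∈ X := by
    rcases hy.1 with h1 | h1
    · exact h1.1
    · omega
  have hxX : x ∈ X := by
    rcases hx.1 with h1 | h1
    · exact h1.1
    · omega
  rcases hz.1 with h1 | h1
  · exact hX x hxX y hyX z h1.1 hxy hyz h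
  · exact h1.1.2.2 ⟨x, hxX, y, hyX, hxy, hyz, h⟩

open scoped Classical in
lemma Y_card (X : Set ℕ) {K : ℕ} (hK : 2 ≤ K) (N : ℕ) :
    (cnt X N : ℝ) + (((Ioc (N - N / K) N).filter (fun z => z ∈ E X)).card : ℝ) ≤
      (cnt (Y X K N) N : ℝ) + (N : ℝ) / K * (2 / K) + Real.sqrt N := by
  have h1 : ((Icc 1 N).filter (fun z => z ∈ X)) ∪ ((Ioc (N - N / K) N).filter (fun z => z ∈ E X)) ⊆
      ((Icc 1 N).filter (fun z => z ∈ Y X K N)) ∪
        ((Ioc (N - N / K) N).filter (fun z => ∃ a, K ≤ a ∧ a ^ 2 ∣ z)) := by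
    intro z hz
    have hz1 : 1 ≤ z ∧ z ≤ N := by
      simp only [Finset.mem_union, Finset.mem_filter, Finset.mem_Icc, Finset.mem_Ioc] at hz
      omega
    by_cases hbad : N - N / K < z ∧ ∃ a, K ≤ a ∧ a ^ 2 ∣ z
    · rw [Finset.mem_union]
      right
      rw [Finset.mem_filter, Finset.mem_Ioc]
      exact ⟨⟨hbad.1, hz1.2⟩, hbad.2⟩
    · rw [Finset.mem_union]
      left
      rw [Finset.mem_filter, Finset.mem_Icc]
      refine ⟨hz1, ?_, hbad⟩
      rcases Finset.mem_union.1 hz with h | h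
      · exact Or.inl ⟨(Finset.mem_filter.1 h).2, hz1.2⟩
      · exact Or.inr ⟨(Finset.mem_filter.1 h).2,
          (Finset.mem_Ioc.1 (Finset.mem_filter.1 h).1).1, hz1.2⟩
  have h2 : Disjoint ((Icc 1 N).filter (fun z => z ∈ X))
      ((Ioc (N - N / K) N).filter (fun z => z ∈ E X)) := by
    rw [Finset.disjoint_left]
    intro z hz hz'
    exact (Finset.mem_filter.1 hz').2.2.1 (Finset.mem_filter.1 hz).2
  have h3 := (Finset.card_le_card h1).trans (Finset.card_union_le _ _)
  rw [Finset.card_union_of_disjoint h2] at h3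
  have h4 := bad_count (M := N - N / K) (N := N) (K := K) (Nat.sub_le _ _) hK
  have h5 : (N : ℝ) - ((N - N / K : ℕ) : ℝ) ≤ (N : ℝ) / K := by
    rw [Nat.cast_sub (Nat.div_le_self _ _)]
    have := @Nat.cast_div_le ℝ _ _ _ N K
    linarith
  have h6 : (0 : ℝ) ≤ 2 / K := by positivity
  have h7 := mul_le_mul_of_nonneg_right h5 h6
  have h8 : (((Icc 1 N).filter (fun z => z ∈ X)).card : ℝ) +
      (((Ioc (N - N / K) N).filter (fun z => z ∈ E X)).card : ℝ) ≤
      (((Icc 1 N).filter (fun z => z ∈ Y X K N)).card : ℝ) +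
        (((Ioc (N - N / K) N).filter (fun z => ∃ a, K ≤ a ∧ a ^ 2 ∣ z)).card : ℝ) := by
    exact_mod_cast h3
  unfold cnt
  linarith

open scoped Classical in
lemma E_local {X : Set ℕ} (hX : GPFree X) (hX0 : ∀ x ∈ X, 0 < x) {K : ℕ} (hK : 2 ≤ K) {d : ℝ}
    (hd : Tendsto (fun N : ℕ => (cnt X N : ℝ) / N) atTop (nhds d))
    (hdK : sSup upperDensities - 1 / (K : ℝ) ^ 2 < d) :
    ∃ N₀, K ≤ N₀ ∧ ∀ N, N₀ ≤ N →
      (((Ioc (N - N / K) N).filter (fun z => z ∈ E X)).card : ℝ) ≤ 4 * N / (K : ℝ) ^ 2 := by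
  have hK0 : (0 : ℝ) < K := by exact_mod_cast (by omega : 0 < K)
  have hK2 : (0 : ℝ) < 1 / (K : ℝ) ^ 2 := by positivity
  set κ := 1 / (K : ℝ) ^ 2 with hκ
  have h1 : ∀ᶠ N : ℕ in atTop, d - κ / 4 < (cnt X N : ℝ) / N :=
    hd.eventually (lt_mem_nhds (by linarith))
  have h2 := glue (β := sSup upperDensities + κ / 4) (by linarith)
  obtain ⟨N₁, hN₁⟩ := Filter.eventually_atTop.1 (h1.and h2)
  refine ⟨N₁ + 4 * K ^ 4 + K, by omega, ?_⟩
  intro N hN
  obtain ⟨h3, h4⟩ := hN₁ N (by omega)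
  have hN0 : (0 : ℝ) < N := by exact_mod_cast (by omega : 0 < N)
  have h5 := h4 ((Icc 1 N).filter (fun z => z ∈ Y X K N)) (Finset.filter_subset _ _)
    ((Y_gpfree (N := N) hX hX0 hK).mono fun z hz => (Finset.mem_filter.1 (Finset.mem_coe.1 hz)).2)
  have h6 := Y_card X hK N
  unfold cnt at h6 h3
  rw [lt_div_iff₀ hN0] at h3
  have h7 : Real.sqrt N ≤ κ / 2 * N := by
    apply Real.sqrt_le_iff.2
    refine ⟨by positivity, ?_⟩
    have h8 : 4 * (K : ℝ) ^ 4 ≤ N := by
      have : 4 * K ^ 4 ≤ N := by omega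
      exact_mod_cast this
    have h9 : (N : ℝ) * 4 * (K : ℝ) ^ 4 ≤ N * N := by nlinarith
    have h10 : (κ / 2 * N) ^ 2 = (N * N) / (4 * (K : ℝ) ^ 4) := by
      rw [hκ]
      field_simp
      ring
    rw [h10, le_div_iff₀ (by positivity)]
    linarith
  have h11 : (N : ℝ) / K * (2 / K) = 2 * κ * N := by
    rw [hκ]
    field_simp
  have h12 : 4 * N / (K : ℝ) ^ 2 = 4 * κ * N := by
    rw [hκ]
    field_simp
  rw [h12]
  rw [h11] at h6
  nlinarith

open scoped Classical in
lemma E_total {S : Set ℕ} {K N₀ : ℕ} (hK : 2 ≤ K) (hN₀ : K ≤ N₀)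
    (h : ∀ N, N₀ ≤ N → (((Ioc (N - N / K) N).filter (fun z => z ∈ S)).card : ℝ) ≤
      4 * N / (K : ℝ) ^ 2) :
    ∀ N : ℕ, (cnt S N : ℝ) ≤ N₀ + 8 * N / K := by
  have hK0 : (0 : ℝ) < K := by exact_mod_cast (by omega : 0 < K)
  intro N
  induction N using Nat.strong_induction_on with
  | _ N ih =>
    by_cases hN : N < N₀
    · have h1 : (cnt S N : ℝ) ≤ N := by exact_mod_cast cnt_le S N
      have h2 : (N : ℝ) ≤ N₀ := by exact_mod_cast hN.le
      have h3 : (0 : ℝ) ≤ 8 * N / K := by positivity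
      linarith
    · push Not at hN
      have hq : 1 ≤ N / K := (Nat.one_le_div_iff (by omega)).2 (by omega)
      have hqN : N / K ≤ N := Nat.div_le_self _ _
      have h1 := ih (N - N / K) (by omega)
      have h2 := h N hN
      have h3 : cnt S N ≤ cnt S (N - N / K) +
          ((Ioc (N - N / K) N).filter (fun z => z ∈ S)).card := by
        unfold cnt
        rw [← Finset.card_union_of_disjoint]
        · apply Finset.card_le_card
          intro z hz
          rw [Finset.mem_filter, Finset.mem_Icc] at hz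
          rw [Finset.mem_union, Finset.mem_filter, Finset.mem_filter, Finset.mem_Icc,
            Finset.mem_Ioc]
          by_cases hz1 : z ≤ N - N / K
          · exact Or.inl ⟨⟨hz.1.1, hz1⟩, hz.2⟩
          · exact Or.inr ⟨⟨by omega, hz.1.2⟩, hz.2⟩
        · rw [Finset.disjoint_left]
          intro z hz hz'
          rw [Finset.mem_filter, Finset.mem_Icc] at hz
          rw [Finset.mem_filter, Finset.mem_Ioc] at hz'
          omega
      have h4 : (cnt S N : ℝ) ≤ cnt S (N - N / K) +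
          (((Ioc (N - N / K) N).filter (fun z => z ∈ S)).card : ℝ) := by exact_mod_cast h3
      have h5 : (N : ℝ) / K < ((N / K : ℕ) : ℝ) + 1 := by
        rw [div_lt_iff₀ hK0]
        have h5 : N < (N / K + 1) * K := by
          have h6 := Nat.div_add_mod N K
          have h7 := Nat.mod_lt N (by omega : K > 0)
          calc N = K * (N / K) + N % K := h6.symm
            _ < K * (N / K) + K := by omega
            _ = (N / K + 1) * K := by ring
        exact_mod_cast h5
      have h6 : (1 : ℝ) ≤ ((N / K : ℕ) : ℝ) := by exact_mod_cast hq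
      rw [Nat.cast_sub hqN] at h1
      generalize ((N / K : ℕ) : ℝ) = q at *
      have h7 : 8 * ((N : ℝ) - q) / K + 4 * N / (K : ℝ) ^ 2 ≤ 8 * N / K := by
        have h8 : 4 * (N : ℝ) / (K : ℝ) ^ 2 = 4 * ((N : ℝ) / K) / K := by
          field_simp
        rw [h8, ← add_div]
        apply div_le_div_of_nonneg_right _ hK0.le
        linarith
      linarith

end Pool.Agent.R326.GP
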