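import Pool.Agent.R326.GP.Improve

/-!
# Densities stay away from the supremum of the upper densities
-/

set_option autoImplicit false

namespace Pool.Agent.R326.GP

open Finset Filter

lemma cnt_Sp_large : ∀ᶠ N : ℕ in atTop, (N : ℝ) / 4096 ≤ cnt (Sp N) N :=
  Filter.eventually_atTop.2 ⟨2 ^ 20, fun N hN => Sp_count N hN⟩

lemma main_aux {T W K : ℕ} (hT : T = 49152) (hW : W = (((T ^ 2) ^ 2) ^ 6) ^ ((T ^ 2) ^ 2))
    (hK : K = 262144 * T * W ^ 2 + 2) (d : ℝ) (hd : d ∈ densities)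
    (hdK : sSup upperDensities - 1 / (K : ℝ) ^ 2 < d) :
    d ≤ sSup upperDensities - 1 / 16384 := by
  obtain ⟨X, hX0, hX, hlim⟩ := hd
  have hK2 : 2 ≤ K := by omega
  have hT1 : 1 ≤ T := by omega
  have hK0 : (0 : ℝ) < K := by exact_mod_cast (by omega : 0 < K)
  obtain ⟨N₀, hN₀, hloc⟩ := E_local hX hX0 hK2 hlim hdK
  have hE := E_total hK2 hN₀ hloc
  have hcount := count_X hX hX0 hT1 hW
  clear hW
  have h1 : ∀ᶠ N : ℕ in atTop, d - 1 / 65536 < (cnt X N : ℝ) / N :=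
    hlim.eventually (lt_mem_nhds (by linarith))
  have h2 := glue (β := sSup upperDensities + 1 / 65536) (by linarith)
  obtain ⟨N₁, hN₁⟩ := Filter.eventually_atTop.1 ((h1.and h2).and cnt_Sp_large)
  set N := N₁ + 65536 * (2 * T * W ^ 2 * N₀) + 1 with hN
  obtain ⟨⟨h3, h4⟩, h5⟩ := hN₁ N (by omega)
  have hN0 : (0 : ℝ) < N := by exact_mod_cast (by omega : 0 < N)
  classical
  have h6 := h4 ((Icc 1 N).filter (fun z => z ∈ Z N)) (Finset.filter_subset _ _)
    ((Z_gpfree N).mono fun z hz => (Finset.mem_filter.1 (Finset.mem_coe.1 hz)).2)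
  rw [← cnt_eq] at h6
  have h7 : (cnt G N : ℝ) + cnt (Sp N) N ≤ cnt (Z N) N := by exact_mod_cast improve N
  rw [lt_div_iff₀ hN0] at h3
  have h8 := hcount N
  have h9 := hE N
  have h10 : 2 * (T : ℝ) * W ^ 2 * cnt (E X) N ≤ 2 * (T : ℝ) * W ^ 2 * (N₀ + 8 * N / K) :=
    mul_le_mul_of_nonneg_left h9 (by positivity)
  have h11 : 2 * (T : ℝ) * W ^ 2 * N₀ ≤ N / 65536 := by
    have : 65536 * (2 * T * W ^ 2 * N₀) ≤ N := by omega
    have h12 : 65536 * (2 * (T : ℝ) * W ^ 2 * N₀) ≤ N := by exact_mod_cast this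
    linarith
  have h12 : 2 * (T : ℝ) * W ^ 2 * (8 * N / K) ≤ N / 16384 := by
    have h13 : 2 * (T : ℝ) * W ^ 2 * (8 * N / K) = (16 * (T : ℝ) * W ^ 2) * N / K := by ring
    rw [h13, div_le_div_iff₀ hK0 (by norm_num)]
    have h14 : (K : ℝ) = 262144 * T * W ^ 2 + 2 := by rw [hK]; push_cast; ring
    rw [h14]
    have h15 : (0 : ℝ) ≤ (N : ℝ) * 2 := by positivity
    nlinarith
  have h13 : 3 * (N : ℝ) / T = N / 16384 := by
    rw [hT]
    push_cast
    ring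
  rw [h13] at h8
  have h14 : (d - 1 / 65536) * N < (sSup upperDensities + 1 / 65536) * N - N / 4096 +
      N / 16384 + N / 65536 + N / 16384 := by
    nlinarith
  have h15 : (d - 1 / 65536) * N < ((sSup upperDensities + 1 / 65536) - 1 / 4096 +
      1 / 16384 + 1 / 65536 + 1 / 16384) * N := by
    linarith
  have h16 := lt_of_mul_lt_mul_right h15 hN0.le
  linarith

theorem main : ∃ ε > 0, ∀ d ∈ densities, d ≤ sSup upperDensities - ε := by
  obtain ⟨T, hT⟩ : ∃ T : ℕ, T = 49152 := ⟨_, rfl⟩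
  obtain ⟨W, hW⟩ : ∃ W : ℕ, W = (((T ^ 2) ^ 2) ^ 6) ^ ((T ^ 2) ^ 2) := ⟨_, rfl⟩
  obtain ⟨K, hK⟩ : ∃ K : ℕ, K = 262144 * T * W ^ 2 + 2 := ⟨_, rfl⟩
  have hK0 : (0 : ℝ) < K := by exact_mod_cast (by omega : 0 < K)
  refine ⟨min (1 / (K : ℝ) ^ 2) (1 / 16384), by positivity, ?_⟩
  intro d hd
  by_cases h : sSup upperDensities - 1 / (K : ℝ) ^ 2 < d
  · have h1 := main_aux hT hW hK d hd h
    have h2 := min_le_right (1 / (K : ℝ) ^ 2) (1 / 16384)
    linarith
  · push Not at h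
    have h2 := min_le_left (1 / (K : ℝ) ^ 2) (1 / 16384)
    linarith

lemma cnt_empty (N : ℕ) : cnt ∅ N = 0 := by
  classical
  rw [cnt_eq]
  simp

lemma GPFree_empty : GPFree ∅ := fun a ha => absurd ha (Set.notMem_empty a)

lemma zero_mem_densities : (0 : ℝ) ∈ densities := by
  refine ⟨∅, fun a ha => absurd ha (Set.notMem_empty a), GPFree_empty, ?_⟩
  simp only [cnt_empty]
  simp

theorem main_lt : sSup densities < sSup upperDensities := by
  obtain ⟨ε, hε, h⟩ := main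
  have h1 : sSup densities ≤ sSup upperDensities - ε := csSup_le ⟨0, zero_mem_densities⟩ h
  linarith

end Pool.Agent.R326.GP
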