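import Pool.Agent.R326.GP.Greedy

/-!
# Counting functions, a square sieve and the glueing lemma
-/

set_option autoImplicit false

namespace Pool.Agent.R326.GP

open Finset Filter

open Classical in
/-- counting function -/
noncomputable def cnt (A : Set ℕ) (N : ℕ) : ℕ := ((Finset.Icc 1 N).filter (fun n => n ∈ A)).card

/-! ### a sieve by squares -/

lemma card_dvd_Ioc {M N d : ℕ} (hd : 0 < d) (h : M ≤ N) :
    (((Ioc M N).filter (fun z => d ∣ z)).card : ℝ) ≤ ((N : ℝ) - M) / d + 1 := by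
  have h1 : ((Ioc M N).filter (fun z => d ∣ z)).card + ((Ioc 0 M).filter (fun z => d ∣ z)).card =
      ((Ioc 0 N).filter (fun z => d ∣ z)).card := by
    rw [← Finset.card_union_of_disjoint]
    · congr 1
      ext z
      simp only [Finset.mem_union, Finset.mem_filter, Finset.mem_Ioc]
      constructor
      · rintro (⟨⟨h1, h2⟩, h3⟩ | ⟨⟨h1, h2⟩, h3⟩)
        · exact ⟨⟨by omega, h2⟩, h3⟩
        · exact ⟨⟨h1, by omega⟩, h3⟩
      · rintro ⟨⟨h1, h2⟩, h3⟩
        by_cases hz : z ≤ M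
        · exact Or.inr ⟨⟨h1, hz⟩, h3⟩
        · exact Or.inl ⟨⟨by omega, h2⟩, h3⟩
    · rw [Finset.disjoint_left]
      intro z h1 h2
      simp only [Finset.mem_filter, Finset.mem_Ioc] at h1 h2
      omega
  rw [Nat.Ioc_filter_dvd_card_eq_div, Nat.Ioc_filter_dvd_card_eq_div] at h1
  have h2 : ((N / d : ℕ) : ℝ) ≤ (N : ℝ) / d := Nat.cast_div_le
  have h3 : (M : ℝ) / d < ((M / d : ℕ) : ℝ) + 1 := by
    rw [div_lt_iff₀ (by exact_mod_cast hd)]
    have h5 : M < (M / d + 1) * d := by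
      have h6 := Nat.div_add_mod M d
      have h7 := Nat.mod_lt M hd
      calc M = d * (M / d) + M % d := h6.symm
        _ < d * (M / d) + d := by omega
        _ = (M / d + 1) * d := by ring
    exact_mod_cast h5
  have h4 : (((Ioc M N).filter (fun z => d ∣ z)).card : ℝ) + ((M / d : ℕ) : ℝ) =
      ((N / d : ℕ) : ℝ) := by exact_mod_cast h1
  rw [sub_div]
  linarith

lemma sieve {M N : ℕ} (h : M ≤ N) (I : Finset ℕ) (hI : ∀ a ∈ I, 0 < a) :
    (((Ioc M N).filter (fun z => ∃ a ∈ I, a ^ 2 ∣ z)).card : ℝ) ≤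
      ((N : ℝ) - M) * (∑ a ∈ I, ((a : ℝ) ^ 2)⁻¹) + I.card := by
  have h1 : (Ioc M N).filter (fun z => ∃ a ∈ I, a ^ 2 ∣ z) ⊆
      I.biUnion (fun a => (Ioc M N).filter (fun z => a ^ 2 ∣ z)) := by
    intro z hz
    simp only [Finset.mem_filter, Finset.mem_biUnion] at hz ⊢
    obtain ⟨hz, a, ha, haz⟩ := hz
    exact ⟨a, ha, hz, haz⟩
  have h2 := (Finset.card_le_card h1).trans Finset.card_biUnion_le
  calc (((Ioc M N).filter (fun z => ∃ a ∈ I, a ^ 2 ∣ z)).card : ℝ) ≤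
      ((∑ a ∈ I, ((Ioc M N).filter (fun z => a ^ 2 ∣ z)).card : ℕ) : ℝ) := by exact_mod_cast h2
    _ = ∑ a ∈ I, (((Ioc M N).filter (fun z => a ^ 2 ∣ z)).card : ℝ) := by push_cast; rfl
    _ ≤ ∑ a ∈ I, (((N : ℝ) - M) * ((a : ℝ) ^ 2)⁻¹ + 1) := by
        apply Finset.sum_le_sum
        intro a ha
        have := card_dvd_Ioc (M := M) (N := N) (d := a ^ 2) (pow_pos (hI a ha) 2) h
        rw [div_eq_mul_inv] at this
        push_cast at this
        exact this
    _ = _ := by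
        rw [Finset.sum_add_distrib, ← Finset.mul_sum]
        simp

open scoped Classical in
lemma sieve0 (N T : ℕ) (hT : 0 < T) :
    (((Ioc 0 N).filter (fun z => ∃ a, T < a ∧ a ^ 2 ∣ z)).card : ℝ) ≤ (N : ℝ) / T := by
  have h1 : (Ioc 0 N).filter (fun z => ∃ a, T < a ∧ a ^ 2 ∣ z) ⊆
      (Ioc T (T + N)).biUnion (fun a => (Ioc 0 N).filter (fun z => a ^ 2 ∣ z)) := by
    intro z hz
    simp only [Finset.mem_filter, Finset.mem_biUnion, Finset.mem_Ioc] at hz ⊢
    obtain ⟨hz, a, ha, haz⟩ := hz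
    have h2 := Nat.le_of_dvd hz.1 haz
    have h3 : a ≤ a ^ 2 := Nat.le_self_pow two_ne_zero a
    exact ⟨a, ⟨ha, by omega⟩, hz, haz⟩
  have h2 := (Finset.card_le_card h1).trans Finset.card_biUnion_le
  have h3 := sum_Ioc_inv_sq_le_sub (α := ℝ) (k := T) (n := T + N) (by omega) (by omega)
  have h4 : (0 : ℝ) ≤ ((T + N : ℕ) : ℝ)⁻¹ := by positivity
  calc (((Ioc 0 N).filter (fun z => ∃ a, T < a ∧ a ^ 2 ∣ z)).card : ℝ) ≤
      ((∑ a ∈ Ioc T (T + N), ((Ioc 0 N).filter (fun z => a ^ 2 ∣ z)).card : ℕ) : ℝ) := by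
        exact_mod_cast h2
    _ = ∑ a ∈ Ioc T (T + N), (((Ioc 0 N).filter (fun z => a ^ 2 ∣ z)).card : ℝ) := by
        push_cast; rfl
    _ ≤ ∑ a ∈ Ioc T (T + N), ((N : ℝ) * ((a : ℝ) ^ 2)⁻¹) := by
        apply Finset.sum_le_sum
        intro a ha
        rw [Nat.Ioc_filter_dvd_card_eq_div]
        have := @Nat.cast_div_le ℝ _ _ _ N (a ^ 2)
        rw [div_eq_mul_inv] at this
        push_cast at this
        exact this
    _ = N * ∑ a ∈ Ioc T (T + N), (((a : ℝ) ^ 2)⁻¹) := by rw [Finset.mul_sum]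
    _ ≤ N * (T : ℝ)⁻¹ := by
        apply mul_le_mul_of_nonneg_left _ (Nat.cast_nonneg N)
        linarith
    _ = (N : ℝ) / T := by rw [div_eq_mul_inv]

open scoped Classical in
lemma bad_count {M N K : ℕ} (h : M ≤ N) (hK : 2 ≤ K) :
    (((Ioc M N).filter (fun z => ∃ a, K ≤ a ∧ a ^ 2 ∣ z)).card : ℝ) ≤
      ((N : ℝ) - M) * (2 / K) + Real.sqrt N := by
  set I := Ioo (K - 1) (Nat.sqrt N + 1) with hI
  have h0 : ∀ a ∈ I, 0 < a := by
    intro a ha
    rw [hI, Finset.mem_Ioo] at ha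
    omega
  have h1 : (Ioc M N).filter (fun z => ∃ a, K ≤ a ∧ a ^ 2 ∣ z) ⊆
      (Ioc M N).filter (fun z => ∃ a ∈ I, a ^ 2 ∣ z) := by
    intro z hz
    simp only [Finset.mem_filter, Finset.mem_Ioc] at hz ⊢
    obtain ⟨hz, a, ha, haz⟩ := hz
    have h2 := Nat.le_of_dvd (by omega) haz
    have h3 : a ≤ Nat.sqrt N := Nat.le_sqrt'.2 (by omega)
    refine ⟨hz, a, ?_, haz⟩
    rw [hI, Finset.mem_Ioo]
    omega
  have h2 := sieve h I h0
  have h3 := sum_Ioo_inv_sq_le (α := ℝ) (K - 1) (Nat.sqrt N + 1)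
  have h4 : (((K - 1 : ℕ) : ℝ) + 1) = K := by
    rw [Nat.cast_sub (by omega)]
    push_cast
    ring
  rw [h4] at h3
  have h5 : (I.card : ℝ) ≤ Real.sqrt N := by
    have : I.card ≤ Nat.sqrt N := by
      rw [hI, Nat.card_Ioo]
      omega
    calc (I.card : ℝ) ≤ (Nat.sqrt N : ℝ) := by exact_mod_cast this
      _ ≤ Real.sqrt N := Real.nat_sqrt_le_real_sqrt
  have h6 : (0 : ℝ) ≤ (N : ℝ) - M := by
    have : (M : ℝ) ≤ N := by exact_mod_cast h
    linarith
  calc (((Ioc M N).filter (fun z => ∃ a, K ≤ a ∧ a ^ 2 ∣ z)).card : ℝ) ≤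
      (((Ioc M N).filter (fun z => ∃ a ∈ I, a ^ 2 ∣ z)).card : ℝ) := by
        exact_mod_cast Finset.card_le_card h1
    _ ≤ _ := h2
    _ ≤ _ := add_le_add (mul_le_mul_of_nonneg_left h3 h6) h5

/-! ### densities -/

/-- densities of GP-free sets -/
def densities : Set ℝ := {d | ∃ A : Set ℕ, (∀ a ∈ A, 0 < a) ∧ GPFree A ∧
  Tendsto (fun N : ℕ => (cnt A N : ℝ) / N) atTop (nhds d)}

/-- upper densities of GP-free sets -/
def upperDensities : Set ℝ := {d | ∃ A : Set ℕ, (∀ a ∈ A, 0 < a) ∧ GPFree A ∧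
  limsup (fun N : ℕ => (cnt A N : ℝ) / N) atTop = d}

lemma cnt_le (A : Set ℕ) (N : ℕ) : cnt A N ≤ N := by
  classical
  unfold cnt
  calc _ ≤ (Icc 1 N).card := card_filter_le _ _
    _ = N := by simp

lemma quot_le_one (A : Set ℕ) (N : ℕ) : (cnt A N : ℝ) / N ≤ 1 :=
  div_le_one_of_le₀ (by exact_mod_cast cnt_le A N) (Nat.cast_nonneg N)

lemma quot_nonneg (A : Set ℕ) (N : ℕ) : 0 ≤ (cnt A N : ℝ) / N := by positivity

lemma bdd (A : Set ℕ) : IsBoundedUnder (· ≤ ·) atTop (fun N : ℕ => (cnt A N : ℝ) / N) :=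
  isBoundedUnder_of ⟨1, quot_le_one A⟩

lemma bdd' (A : Set ℕ) : IsBoundedUnder (· ≥ ·) atTop (fun N : ℕ => (cnt A N : ℝ) / N) :=
  isBoundedUnder_of ⟨0, quot_nonneg A⟩

lemma bddAbove_upper : BddAbove upperDensities := by
  refine ⟨1, ?_⟩
  rintro d ⟨A, -, -, rfl⟩
  exact limsup_le_of_le (bdd' A).isCoboundedUnder_le (Eventually.of_forall (quot_le_one A))

/-! ### glueing -/

lemma card_square (x N : ℕ) (hx : 0 < x) :
    ((Icc 1 N).filter (fun z => IsSquare (x * z))).card ≤ Nat.sqrt (x * N) := by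
  calc ((Icc 1 N).filter (fun z => IsSquare (x * z))).card ≤ (Icc 1 (Nat.sqrt (x * N))).card := by
        apply Finset.card_le_card_of_injOn (fun z => Nat.sqrt (x * z))
        · intro z hz
          have hz' := Finset.mem_filter.1 (Finset.mem_coe.1 hz)
          have hz1 := Finset.mem_Icc.1 hz'.1
          apply Finset.mem_coe.2
          rw [Finset.mem_Icc]
          refine ⟨Nat.sqrt_pos.2 (Nat.mul_pos hx (by omega)), Nat.sqrt_le_sqrt ?_⟩
          exact Nat.mul_le_mul_left x hz1.2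
        · intro z hz w hw hzw
          have hz' := Finset.mem_filter.1 (Finset.mem_coe.1 hz)
          have hw' := Finset.mem_filter.1 (Finset.mem_coe.1 hw)
          obtain ⟨a, ha⟩ := hz'.2
          obtain ⟨b, hb⟩ := hw'.2
          simp only [ha, hb, Nat.sqrt_eq] at hzw
          subst hzw
          exact Nat.eq_of_mul_eq_mul_left hx (ha.trans hb.symm)
    _ = Nat.sqrt (x * N) := by simp

lemma removed (m N R : ℕ) (hR : 0 < R) (hN : R ^ 2 * (m + 1) ^ 4 ≤ N) :
    R * ((Icc 1 N).filter (fun z => z ≤ m ∨ ∃ x ∈ Icc 1 m, IsSquare (x * z))).card ≤ 2 * N := by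
  have h1 : (Icc 1 N).filter (fun z => z ≤ m ∨ ∃ x ∈ Icc 1 m, IsSquare (x * z)) ⊆
      Icc 1 m ∪ (Icc 1 m).biUnion (fun x => (Icc 1 N).filter (fun z => IsSquare (x * z))) := by
    intro z hz
    rw [Finset.mem_filter] at hz
    rw [Finset.mem_union]
    rcases hz.2 with h | ⟨x, hx, hxz⟩
    · left
      have := Finset.mem_Icc.1 hz.1
      rw [Finset.mem_Icc]
      omega
    · right
      rw [Finset.mem_biUnion]
      exact ⟨x, hx, Finset.mem_filter.2 ⟨hz.1, hxz⟩⟩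
  have h2 : ((Icc 1 m).biUnion (fun x => (Icc 1 N).filter (fun z => IsSquare (x * z)))).card ≤
      m * Nat.sqrt (m * N) := by
    refine Finset.card_biUnion_le.trans ?_
    calc ∑ x ∈ Icc 1 m, ((Icc 1 N).filter (fun z => IsSquare (x * z))).card ≤
        ∑ x ∈ Icc 1 m, Nat.sqrt (m * N) := by
          apply Finset.sum_le_sum
          intro x hx
          rw [Finset.mem_Icc] at hx
          exact (card_square x N (by omega)).trans
            (Nat.sqrt_le_sqrt (Nat.mul_le_mul_right N hx.2))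
      _ = m * Nat.sqrt (m * N) := by simp
  have h3 := (Finset.card_le_card h1).trans (Finset.card_union_le _ _)
  rw [Nat.card_Icc] at h3
  have h4 : R * m ≤ N := by
    refine le_trans ?_ hN
    apply Nat.mul_le_mul (Nat.le_self_pow two_ne_zero R)
    exact (Nat.le_succ m).trans (Nat.le_self_pow (by norm_num) _)
  have h5 : R * (m * Nat.sqrt (m * N)) ≤ N := by
    by_contra hcon
    push Not at hcon
    have h6 : N * N < (R * (m * Nat.sqrt (m * N))) * (R * (m * Nat.sqrt (m * N))) :=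
      Nat.mul_self_lt_mul_self hcon
    have h7 : Nat.sqrt (m * N) * Nat.sqrt (m * N) ≤ m * N := Nat.sqrt_le _
    have h8 : R ^ 2 * m ^ 3 ≤ N := by
      refine le_trans ?_ hN
      apply Nat.mul_le_mul_left
      calc m ^ 3 ≤ (m + 1) ^ 3 := Nat.pow_le_pow_left (by omega) 3
        _ ≤ (m + 1) ^ 4 := Nat.pow_le_pow_right (by omega) (by norm_num)
    have h9 : (R * (m * Nat.sqrt (m * N))) * (R * (m * Nat.sqrt (m * N))) ≤ N * N := by
      calc (R * (m * Nat.sqrt (m * N))) * (R * (m * Nat.sqrt (m * N))) =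
          R ^ 2 * m ^ 2 * (Nat.sqrt (m * N) * Nat.sqrt (m * N)) := by ring
        _ ≤ R ^ 2 * m ^ 2 * (m * N) := Nat.mul_le_mul_left _ h7
        _ = (R ^ 2 * m ^ 3) * N := by ring
        _ ≤ N * N := Nat.mul_le_mul_right _ h8
    omega
  have h6 : ((Icc 1 N).filter (fun z => z ≤ m ∨ ∃ x ∈ Icc 1 m, IsSquare (x * z))).card ≤
      m + m * Nat.sqrt (m * N) := by omega
  have h7 := Nat.mul_le_mul_left R h6
  rw [Nat.mul_add] at h7
  omega

lemma glue {β : ℝ} (hβ : sSup upperDensities < β) :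
    ∀ᶠ N : ℕ in atTop, ∀ Y : Finset ℕ, Y ⊆ Icc 1 N → GPFree (Y : Set ℕ) →
      (Y.card : ℝ) < β * N := by
  classical
  by_contra hcon
  rw [Filter.not_eventually] at hcon
  rw [Filter.frequently_atTop] at hcon
  set δ := (β - sSup upperDensities) / 2 with hδ
  have hδ0 : 0 < δ := by rw [hδ]; linarith
  obtain ⟨R, hR⟩ := exists_nat_gt (2 / δ)
  have hR0' : (0 : ℝ) < R := lt_trans (by positivity) hR
  have hR0 : 0 < R := by exact_mod_cast hR0'
  have hch : ∀ m : ℕ, ∃ N : ℕ, ∃ Y : Finset ℕ, R ^ 2 * (m + 1) ^ 4 ≤ N ∧ m < N ∧ Y ⊆ Icc 1 N ∧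
      GPFree (Y : Set ℕ) ∧ β * N ≤ Y.card := by
    intro m
    obtain ⟨N, hN, hY⟩ := hcon (R ^ 2 * (m + 1) ^ 4 + m + 1)
    push Not at hY
    obtain ⟨Y, h1, h2, h3⟩ := hY
    exact ⟨N, Y, by omega, by omega, h1, h2, h3⟩
  choose nx Ys h1 h2 h3 h4 h5 using hch
  let s : ℕ → ℕ := fun j => nx^[j] 0
  have hs : ∀ j, s (j + 1) = nx (s j) := fun j => Function.iterate_succ_apply' nx j 0
  have hmono : StrictMono s := strictMono_nat_of_lt_succ fun j => by
    rw [hs]
    exact h2 _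
  let A : Set ℕ := {z | ∃ j, s j < z ∧ z ≤ s (j + 1) ∧ z ∈ Ys (s j) ∧
    ∀ x ∈ Icc 1 (s j), ¬ IsSquare (x * z)}
  have hA0 : ∀ a ∈ A, 0 < a := by
    rintro a ⟨j, hj, -⟩
    omega
  have hA : GPFree A := by
    rintro a ⟨i, ha1, ha2, ha3, ha4⟩ b ⟨j, hb1, hb2, hb3, hb4⟩ c ⟨k, hc1, hc2, hc3, hc4⟩ hab hbc h
    have hik : ¬ i < k := by
      intro hlt
      have : s (i + 1) ≤ s k := hmono.monotone hlt
      apply hc4 a
      · rw [Finset.mem_Icc]
        omega
      · exact ⟨b, by rw [h]; ring⟩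
    have hki : ¬ k < i := by
      intro hlt
      have : s (k + 1) ≤ s i := hmono.monotone hlt
      omega
    have hik' : i = k := by omega
    have hjk : ¬ j < k := by
      intro hlt
      have : s (j + 1) ≤ s k := hmono.monotone hlt
      rw [hik'] at ha1
      omega
    have hkj : ¬ k < j := by
      intro hlt
      have : s (k + 1) ≤ s j := hmono.monotone hlt
      omega
    have hjk' : j = k := by omega
    subst hik'
    subst hjk'
    exact h4 _ a ha3 b hb3 c hc3 hab hbc h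
  have hcnt : ∀ j, (β - δ) * (s (j + 1) : ℝ) ≤ cnt A (s (j + 1)) := by
    intro j
    set m := s j with hm
    have hsub : Ys m ⊆ ((Icc 1 (s (j + 1))).filter (fun n => n ∈ A)) ∪
        (Icc 1 (s (j + 1))).filter (fun z => z ≤ m ∨ ∃ x ∈ Icc 1 m, IsSquare (x * z)) := by
      intro z hz
      have hz1 : z ∈ Icc 1 (s (j + 1)) := by
        rw [hs]
        exact h3 _ hz
      rw [Finset.mem_union, Finset.mem_filter, Finset.mem_filter]
      by_cases hz2 : z ≤ m ∨ ∃ x ∈ Icc 1 m, IsSquare (x * z)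
      · exact Or.inr ⟨hz1, hz2⟩
      · left
        push Not at hz2
        refine ⟨hz1, j, hz2.1, (Finset.mem_Icc.1 hz1).2, hz, ?_⟩
        intro x hx
        exact hz2.2 x hx
    have hc1 := (Finset.card_le_card hsub).trans (Finset.card_union_le _ _)
    have hc2 := removed m (s (j + 1)) R hR0 (by rw [hs]; exact h1 _)
    have hc3 : β * (s (j + 1) : ℝ) ≤ (Ys m).card := by
      have := h5 m
      rw [hs]
      exact this
    set q := ((Icc 1 (s (j + 1))).filter (fun z => z ≤ m ∨ ∃ x ∈ Icc 1 m, IsSquare (x * z))).card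
      with hq
    have hc4 : (R : ℝ) * q ≤ 2 * (s (j + 1) : ℝ) := by exact_mod_cast hc2
    have hc5 : (q : ℝ) ≤ δ * (s (j + 1) : ℝ) := by
      have h7 : 2 < δ * R := by
        rw [div_lt_iff₀ hδ0] at hR
        linarith
      have h8 : (0 : ℝ) ≤ s (j + 1) := Nat.cast_nonneg _
      have h9 : (R : ℝ) * q ≤ R * (δ * (s (j + 1) : ℝ)) := by nlinarith
      exact le_of_mul_le_mul_left h9 hR0'
    have hc6 : ((Ys m).card : ℝ) ≤ cnt A (s (j + 1)) + q := by
      have : (Ys m).card ≤ cnt A (s (j + 1)) + q := hc1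
      exact_mod_cast this
    linarith
  have hfreq : ∃ᶠ N : ℕ in atTop, β - δ ≤ (cnt A N : ℝ) / N := by
    rw [Filter.frequently_atTop]
    intro a
    refine ⟨s (a + 1), ?_, ?_⟩
    · have := hmono.le_apply (x := a + 1)
      omega
    · have h6 : (0 : ℝ) < s (a + 1) := by
        have := hmono.le_apply (x := a + 1)
        exact_mod_cast (by omega : 0 < s (a + 1))
      rw [le_div_iff₀ h6]
      exact hcnt a
  have h6 := le_limsup_of_frequently_le hfreq (bdd A)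
  have h7 : limsup (fun N : ℕ => (cnt A N : ℝ) / N) atTop ≤ sSup upperDensities :=
    le_csSup bddAbove_upper ⟨A, hA0, hA, rfl⟩
  rw [hδ] at h6
  linarith

end Pool.Agent.R326.GP
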