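import Mathlib

/-!
# Geometric-progression-free sets: the greedy set and the comparison with nearly greedy sets
-/

set_option autoImplicit false

namespace Pool.Agent.R326.GP

open Finset

/-- no three-term geometric progression with ratio greater than one -/
def GPFree (A : Set ℕ) : Prop := ∀ a ∈ A, ∀ b ∈ A, ∀ c ∈ A, a < b → b < c → a * c ≠ b ^ 2

/-! ### exponents without digit 2 in base 3 -/

/-- no digit `2` in base `3` -/
def A3 (v : ℕ) : Prop := if v = 0 then True else v % 3 ≠ 2 ∧ A3 (v / 3)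
termination_by v
decreasing_by omega

lemma A3_zero : A3 0 := by rw [A3]; simp

lemma A3_iff (v : ℕ) : A3 v ↔ v % 3 ≠ 2 ∧ A3 (v / 3) := by
  by_cases h : v = 0
  · subst h
    simp [A3_zero]
  · conv_lhs => rw [A3, if_neg h]

lemma A3_one : A3 1 := by
  rw [A3_iff]
  exact ⟨by norm_num, by simpa using A3_zero⟩

lemma A3_ap : ∀ z x y : ℕ, A3 x → A3 y → A3 z → x + z = 2 * y → x = y := by
  intro z
  induction z using Nat.strong_induction_on with
  | _ z ih =>
    intro x y hx hy hz h
    by_cases h0 : z = 0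
    · subst h0
      by_contra hne
      -- `x = 2 y` with `y ≠ 0`
      have hx' := hx
      have key : ∀ y : ℕ, A3 y → A3 (2 * y) → y = 0 := by
        intro y
        induction y using Nat.strong_induction_on with
        | _ y ihy =>
          intro h1 h2
          by_contra hy0
          rw [A3_iff] at h1 h2
          have h3 : 2 * y / 3 = 2 * (y / 3) := by omega
          rw [h3] at h2
          have := ihy (y / 3) (by omega) h1.2 h2.2
          omega
      have h1 : x = 2 * y := by omega
      rw [h1] at hx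
      have := key y hy hx
      omega
    · have hx' := (A3_iff x).1 hx
      have hy' := (A3_iff y).1 hy
      have hz' := (A3_iff z).1 hz
      have h1 := ih (z / 3) (by omega) (x / 3) (y / 3) hx'.2 hy'.2 hz'.2 (by omega)
      omega

/-- the canonical reduction -/
def ee (v : ℕ) : ℕ := if v = 0 then 0 else 3 * ee (v / 3) + (if v % 3 = 2 then 1 else 0)
termination_by v
decreasing_by omega

lemma ee_spec : ∀ v : ℕ, 2 * ee v ≤ v ∧ A3 (v - ee v) ∧ A3 (v - 2 * ee v) := by
  intro v
  induction v using Nat.strong_induction_on with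
  | _ v ih =>
    by_cases h0 : v = 0
    · subst h0
      rw [ee]
      simp [A3_zero]
    · obtain ⟨h1, h2, h3⟩ := ih (v / 3) (by omega)
      have he : ee v = 3 * ee (v / 3) + (if v % 3 = 2 then 1 else 0) := by rw [ee, if_neg h0]
      rw [he]
      generalize ee (v / 3) = e at *
      split_ifs with h
      · refine ⟨by omega, ?_, ?_⟩
        · rw [A3_iff]
          have : (v - (3 * e + 1)) / 3 = v / 3 - e := by omega
          rw [this]
          exact ⟨by omega, h2⟩
        · rw [A3_iff]
          have : (v - 2 * (3 * e + 1)) / 3 = v / 3 - 2 * e := by omega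
          rw [this]
          exact ⟨by omega, h3⟩
      · refine ⟨by omega, ?_, ?_⟩
        · rw [A3_iff]
          have : (v - (3 * e + 0)) / 3 = v / 3 - e := by omega
          rw [this]
          exact ⟨by omega, h2⟩
        · rw [A3_iff]
          have : (v - 2 * (3 * e + 0)) / 3 = v / 3 - 2 * e := by omega
          rw [this]
          exact ⟨by omega, h3⟩

/-! ### the greedy set -/

/-- the greedy set -/
def G : Set ℕ := {n | n ≠ 0 ∧ ∀ p, A3 (n.factorization p)}

lemma fact_ap {a b c : ℕ} (ha : a ≠ 0) (hc : c ≠ 0) (h : a * c = b ^ 2) (p : ℕ) :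
    a.factorization p + c.factorization p = 2 * b.factorization p := by
  have h1 := congrArg (fun n => Nat.factorization n p) h
  simp only [Nat.factorization_mul ha hc, Nat.factorization_pow, Finsupp.add_apply,
    Finsupp.smul_apply, smul_eq_mul] at h1
  exact h1

lemma G_gpfree : GPFree G := by
  intro a ha b hb c hc hab hbc h
  have h1 : a = b := by
    apply Nat.eq_of_factorization_eq ha.1 hb.1
    intro p
    exact A3_ap _ _ _ (ha.2 p) (hb.2 p) (hc.2 p) (fact_ap ha.1 hc.1 h p)
  omega

/-- division by the square of a number with prescribed exponents -/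
lemma exists_div (w : ℕ) (hw : w ≠ 0) (h : ℕ → ℕ) (h2 : ∀ p, 2 * h p ≤ w.factorization p) :
    ∃ c, c ≠ 0 ∧ c ^ 2 ∣ w ∧ (∀ p, (w / c).factorization p = w.factorization p - h p) ∧
      (∀ p, (w / c ^ 2).factorization p = w.factorization p - 2 * h p) := by
  let f : ℕ →₀ ℕ := Finsupp.onFinset w.primeFactors h (by
    intro p hp
    rw [← Nat.support_factorization, Finsupp.mem_support_iff]
    have := h2 p
    omega)
  have hf : ∀ p ∈ f.support, p.Prime := by
    intro p hp
    have h3 : f p ≠ 0 := Finsupp.mem_support_iff.1 hp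
    have h4 : f p = h p := rfl
    rw [h4] at h3
    have h5 : p ∈ w.primeFactors := by
      rw [← Nat.support_factorization, Finsupp.mem_support_iff]
      have := h2 p
      omega
    exact Nat.prime_of_mem_primeFactors h5
  set c := f.prod (fun p k => p ^ k) with hc
  have hcf : c.factorization = f := Nat.prod_pow_factorization_eq_self hf
  have hc0 : c ≠ 0 := by
    rw [hc, Finsupp.prod]
    exact Finset.prod_ne_zero_iff.2 fun p hp => pow_ne_zero _ (hf p hp).ne_zero
  have hdvd : c ^ 2 ∣ w := by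
    rw [← Nat.factorization_le_iff_dvd (pow_ne_zero 2 hc0) hw]
    intro p
    rw [Nat.factorization_pow, hcf]
    exact h2 p
  have hdvd1 : c ∣ w := (dvd_pow_self c two_ne_zero).trans hdvd
  refine ⟨c, hc0, hdvd, fun p => ?_, fun p => ?_⟩
  · rw [Nat.factorization_div hdvd1, hcf]
    rfl
  · rw [Nat.factorization_div hdvd, Nat.factorization_pow, hcf]
    rfl

/-- the canonical witness -/
lemma exists_canonical {n : ℕ} (hn : n ≠ 0) : ∃ c, c ≠ 0 ∧ c ^ 2 ∣ n ∧ n / c ∈ G ∧ n / c ^ 2 ∈ G ∧
    (n ∉ G → 2 ≤ c) := by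
  obtain ⟨c, hc0, hc, h1, h2⟩ := exists_div n hn (fun p => ee (n.factorization p))
    fun p => (ee_spec _).1
  have hc1 : c ∣ n := (dvd_pow_self c two_ne_zero).trans hc
  have hG1 : n / c ∈ G := by
    refine ⟨(Nat.div_pos (Nat.le_of_dvd (by omega) hc1) (by omega)).ne', fun p => ?_⟩
    rw [h1]
    exact (ee_spec _).2.1
  refine ⟨c, hc0, hc, hG1, ?_, ?_⟩
  · refine ⟨(Nat.div_pos (Nat.le_of_dvd (by omega) hc) (by positivity)).ne', fun p => ?_⟩
    rw [h2]
    exact (ee_spec _).2.2
  · intro hnG
    by_contra hlt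
    have : c = 1 := by omega
    rw [this, Nat.div_one] at hG1
    exact hnG hG1

/-- the key step -/
lemma key_step {n x y : ℕ} (hn : n ∈ G) (hx : x ≠ 0) (hxy : x < y) (hyn : y < n)
    (h : x * n = y ^ 2) : ∃ w c, (w = x ∨ w = y) ∧ 2 ≤ c ∧ c ^ 2 ∣ w ∧ w / c ∈ G ∧
      w / c ^ 2 ∈ G ∧ w / c ∣ y := by
  have hy0 : y ≠ 0 := by omega
  by_cases hy : y ∈ G
  · have hxG : x ∉ G := fun hxG => G_gpfree x hxG y hy n hn hxy hyn h
    have hap := fact_ap hx hn.1 h
    obtain ⟨c, hc0, hc, h1, h2⟩ := exists_div x hx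
      (fun p => if y.factorization p < x.factorization p then
        x.factorization p - y.factorization p else ee (x.factorization p)) (by
          intro p
          have := hap p
          split_ifs with hlt
          · omega
          · exact (ee_spec _).1)
    have hc1 : c ∣ x := (dvd_pow_self c two_ne_zero).trans hc
    have hxc : x / c ≠ 0 := (Nat.div_pos (Nat.le_of_dvd (by omega) hc1) (by omega)).ne'
    have hG1 : x / c ∈ G := by
      refine ⟨hxc, fun p => ?_⟩
      rw [h1]
      split_ifs with hlt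
      · have : x.factorization p - (x.factorization p - y.factorization p) =
            y.factorization p := by omega
        rw [this]
        exact hy.2 p
      · exact (ee_spec _).2.1
    refine ⟨x, c, Or.inl rfl, ?_, hc, hG1, ?_, ?_⟩
    · by_contra hlt
      have : c = 1 := by omega
      rw [this, Nat.div_one] at hG1
      exact hxG hG1
    · refine ⟨(Nat.div_pos (Nat.le_of_dvd (by omega) hc) (by positivity)).ne', fun p => ?_⟩
      rw [h2]
      split_ifs with hlt
      · have : x.factorization p - 2 * (x.factorization p - y.factorization p) =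
            n.factorization p := by
          have := hap p
          omega
        rw [this]
        exact hn.2 p
      · exact (ee_spec _).2.2
    · rw [← Nat.factorization_le_iff_dvd hxc hy0]
      intro p
      rw [h1]
      split_ifs with hlt
      · omega
      · omega
  · obtain ⟨c, hc0, hc, h1, h2, h3⟩ := exists_canonical hy0
    exact ⟨y, c, Or.inr rfl, h3 hy, hc, h1, h2,
      Nat.div_dvd_of_dvd ((dvd_pow_self c two_ne_zero).trans hc)⟩

/-! ### the potential -/

/-- the radical -/
def rad (n : ℕ) : ℕ := ∏ p ∈ n.primeFactors, p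

/-- the potential `n / rad n` -/
def psi (n : ℕ) : ℕ := n / rad n

lemma rad_pos (n : ℕ) : 0 < rad n :=
  Finset.prod_pos fun _ hp => (Nat.prime_of_mem_primeFactors hp).pos

lemma psi_mul (n : ℕ) : psi n * rad n = n := Nat.div_mul_cancel (Nat.prod_primeFactors_dvd n)

lemma rad_le {n : ℕ} (hn : n ≠ 0) : rad n ≤ n :=
  Nat.le_of_dvd (by omega) (Nat.prod_primeFactors_dvd n)

lemma rad_mul_le {u k : ℕ} (hu : u ≠ 0) (hk : k ≠ 0) : rad (u * k) ≤ rad u * k := by
  have h1 : rad (u * k) ≤ rad u * rad k := by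
    unfold rad
    rw [Nat.primeFactors_mul hu hk, ← Finset.prod_union_inter]
    apply Nat.le_mul_of_pos_right
    apply Finset.prod_pos
    intro p hp
    exact (Nat.prime_of_mem_primeFactors (Finset.mem_inter.1 hp).1).pos
  exact h1.trans (Nat.mul_le_mul_left _ (rad_le hk))

lemma le_psi {a n : ℕ} (hn : n ≠ 0) (h : a ^ 2 ∣ n) : a ≤ psi n := by
  obtain ⟨k, rfl⟩ := h
  have ha : a ≠ 0 := by rintro rfl; simp at hn
  have hk : k ≠ 0 := by rintro rfl; simp at hn
  have h1 : rad (a ^ 2 * k) ≤ a * k := by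
    have h2 : rad (a ^ 2 * k) = rad (a * k) := by
      unfold rad
      rw [Nat.primeFactors_mul (pow_ne_zero 2 ha) hk, Nat.primeFactors_mul ha hk,
        Nat.primeFactors_pow _ two_ne_zero]
    rw [h2]
    exact rad_le (mul_ne_zero ha hk)
  have h3 := psi_mul (a ^ 2 * k)
  have h4 := rad_pos (a ^ 2 * k)
  apply Nat.le_of_mul_le_mul_right _ h4
  rw [h3]
  calc a * rad (a ^ 2 * k) ≤ a * (a * k) := Nat.mul_le_mul_left _ h1
    _ = a ^ 2 * k := by ring

lemma psi_dvd_le {u y : ℕ} (hy : y ≠ 0) (h : u ∣ y) : psi u ≤ psi y := by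
  obtain ⟨k, rfl⟩ := h
  have hu : u ≠ 0 := by rintro rfl; simp at hy
  have hk : k ≠ 0 := by rintro rfl; simp at hy
  have h1 := psi_mul (u * k)
  have h2 := psi_mul u
  have h3 := rad_mul_le hu hk
  have h4 : 0 < rad u * k := Nat.mul_pos (rad_pos u) (by omega)
  apply Nat.le_of_mul_le_mul_right _ h4
  calc psi u * (rad u * k) = u * k := by rw [← mul_assoc, h2]
    _ = psi (u * k) * rad (u * k) := h1.symm
    _ ≤ psi (u * k) * (rad u * k) := Nat.mul_le_mul_left _ h3

lemma psi_lt {n x y : ℕ} (hx : x ≠ 0) (hy : y < n) (h : x * n = y ^ 2) : psi y < psi n := by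
  have hn : n ≠ 0 := by omega
  have hy0 : y ≠ 0 := by
    rintro rfl
    have : x * n ≠ 0 := mul_ne_zero hx hn
    simp at h
    omega
  have h1 : rad n ≤ rad y := by
    unfold rad
    apply Finset.prod_le_prod_of_subset_of_one_le' _
    · intro p hp _
      exact (Nat.prime_of_mem_primeFactors hp).pos
    · intro p hp
      have hp' := Nat.prime_of_mem_primeFactors hp
      rw [Nat.mem_primeFactors]
      refine ⟨hp', ?_, hy0⟩
      apply hp'.dvd_of_dvd_pow (n := 2)
      rw [← h]
      exact Dvd.dvd.mul_left (Nat.dvd_of_mem_primeFactors hp) x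
  have h2 := psi_mul y
  have h3 := psi_mul n
  by_contra hcon
  push Not at hcon
  have : psi n * rad n ≤ psi y * rad y := Nat.mul_le_mul hcon h1
  omega

/-- the ratio of a progression -/
lemma ratio {n x y : ℕ} (hx : x ≠ 0) (hxy : x < y) (hyn : y < n) (h : x * n = y ^ 2) :
    ∃ a b : ℕ, 0 < b ∧ b < a ∧ y * a = n * b ∧ x * a ^ 2 = n * b ^ 2 ∧ a ^ 2 ∣ n := by
  have hn : 0 < n := by omega
  have hy : 0 < y := by omega
  obtain ⟨g, a, b, hg, hab, hna, hyb⟩ := Nat.exists_coprime' (m := n) (n := y)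
    (Nat.gcd_pos_of_pos_left _ hn)
  -- `n = a * g`, `y = b * g`
  have hb : 0 < b := by
    rcases Nat.eq_zero_or_pos b with h0 | h0
    · rw [h0] at hyb; omega
    · exact h0
  have hba : b < a := by
    have : b * g < a * g := by rw [← hna, ← hyb]; exact hyn
    exact lt_of_mul_lt_mul_right this (Nat.zero_le g)
  have h1 : x * a = g * b ^ 2 := by
    apply Nat.eq_of_mul_eq_mul_right hg
    calc x * a * g = x * n := by rw [hna]; ring
      _ = y ^ 2 := h
      _ = g * b ^ 2 * g := by rw [hyb]; ring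
  have h2 : a ∣ g := by
    have h3 : a ∣ g * b ^ 2 := ⟨x, by rw [← h1]; ring⟩
    exact (Nat.Coprime.pow_right 2 hab).dvd_of_dvd_mul_right h3
  obtain ⟨t, rfl⟩ := h2
  refine ⟨a, b, hb, hba, ?_, ?_, ?_⟩
  · rw [hna, hyb]; ring
  · calc x * a ^ 2 = (x * a) * a := by ring
      _ = n * b ^ 2 := by rw [h1, hna]; ring
  · exact ⟨t, by rw [hna]; ring⟩

lemma c_le {n b c w : ℕ} (hn : n ≠ 0) (hb : 0 < b) (hw : w ∣ n * b ^ 2) (hc : c ^ 2 ∣ w) :
    c ≤ psi n * b := by
  have h1 : c ^ 2 ∣ n * b ^ 2 := hc.trans hw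
  have hg : 0 < Nat.gcd c b := Nat.gcd_pos_of_pos_right _ hb
  obtain ⟨g, c', b', hg', hcop, hc', hb'⟩ := Nat.exists_coprime' hg
  have h2 : c' ^ 2 ∣ n * b' ^ 2 := by
    rw [hc', hb'] at h1
    have h3 : c' ^ 2 * g ^ 2 ∣ n * b' ^ 2 * g ^ 2 := by
      have e1 : (c' * g) ^ 2 = c' ^ 2 * g ^ 2 := by ring
      have e2 : n * (b' * g) ^ 2 = n * b' ^ 2 * g ^ 2 := by ring
      rwa [e1, e2] at h1
    exact Nat.dvd_of_mul_dvd_mul_right (by positivity) h3
  have h3 : c' ^ 2 ∣ n := (Nat.Coprime.pow 2 2 hcop).dvd_of_dvd_mul_right h2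
  have h4 := le_psi hn h3
  have h5 : 0 < b' := by
    rcases Nat.eq_zero_or_pos b' with h0 | h0
    · rw [h0] at hb'; omega
    · exact h0
  calc c = c' * g := hc'
    _ ≤ psi n * (b' * g) := Nat.mul_le_mul h4 (Nat.le_mul_of_pos_left g h5)
    _ = psi n * b := by rw [← hb']

/-! ### comparison -/

/-- the missing elements which could be added at their own cut -/
def E (X : Set ℕ) : Set ℕ := {n | n ≠ 0 ∧ n ∉ X ∧
  ¬ ∃ x ∈ X, ∃ y ∈ X, x < y ∧ y < n ∧ x * n = y ^ 2}

lemma tree {X : Set ℕ} (hX : GPFree X) (hX0 : ∀ x ∈ X, x ≠ 0) {L : ℕ} (hL : 1 ≤ L) :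
    ∀ t, t ≤ L → ∀ n, n ∈ G → n ∉ X → psi n ≤ t →
      ∃ u ∈ E X, ∃ B D, 0 < B ∧ B ≤ (L ^ 6) ^ t ∧ 0 < D ∧ D ≤ (L ^ 6) ^ t ∧ u * D = n * B ∧
        u ≤ n := by
  intro t
  induction t with
  | zero =>
    intro _ n hn _ hpsi
    exfalso
    have h1 := psi_mul n
    have h2 : psi n = 0 := by omega
    rw [h2, zero_mul] at h1
    exact hn.1 h1.symm
  | succ t ih =>
    intro htL n hn hnX hpsi
    have hK : 1 ≤ (L ^ 6) ^ (t + 1) := Nat.one_le_pow _ _ (by positivity)
    by_cases hE : n ∈ E X
    · exact ⟨n, hE, 1, 1, one_pos, hK, one_pos, hK, rfl, le_rfl⟩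
    · have h1 : ∃ x ∈ X, ∃ y ∈ X, x < y ∧ y < n ∧ x * n = y ^ 2 := by
        by_contra hcon
        exact hE ⟨hn.1, hnX, hcon⟩
      obtain ⟨x, hx, y, hy, hxy, hyn, h⟩ := h1
      have hx0 := hX0 x hx
      have hy0 := hX0 y hy
      obtain ⟨w, c, hw, hc2, hcw, hu1, hu2, huy⟩ := key_step hn hx0 hxy hyn h
      obtain ⟨a, b, hb, hba, hya, hxa, han⟩ := ratio hx0 hxy hyn h
      have hw0 : w ≠ 0 := by rcases hw with rfl | rfl <;> assumption
      have hwX : w ∈ X := by rcases hw with rfl | rfl <;> assumption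
      have hcw1 : c ∣ w := (dvd_pow_self c two_ne_zero).trans hcw
      -- bounds
      have haL : a ≤ L := (le_psi hn.1 han).trans (hpsi.trans htL)
      have hpL : psi n ≤ L := hpsi.trans htL
      have hwd : w ∣ n * b ^ 2 := by
        rcases hw with rfl | rfl
        · exact ⟨a ^ 2, hxa.symm⟩
        · exact ⟨a * b, by rw [← mul_assoc, hya]; ring⟩
      have hcL : c ≤ L ^ 2 := by
        have := c_le hn.1 hb hwd hcw
        calc c ≤ psi n * b := this
          _ ≤ L * L := Nat.mul_le_mul hpL (by omega)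
          _ = L ^ 2 := by ring
      -- one of the two children is not in `X`
      have hchild : ∃ u' B₀ D₀, u' ∈ G ∧ u' ∉ X ∧ u' ∣ y ∧ u' ≤ n ∧ 0 < B₀ ∧ B₀ ≤ L ^ 6 ∧ 0 < D₀ ∧
          D₀ ≤ L ^ 6 ∧ u' * D₀ = n * B₀ := by
        -- `w * A = n * B`
        obtain ⟨A, B, hA, hB, hAL, hBL, hAB⟩ : ∃ A B, 0 < A ∧ 0 < B ∧ A ≤ L ^ 2 ∧ B ≤ L ^ 2 ∧
            w * A = n * B := by
          rcases hw with rfl | rfl
          · exact ⟨a ^ 2, b ^ 2, pow_pos (by omega) 2, pow_pos hb 2, Nat.pow_le_pow_left haL 2,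
              Nat.pow_le_pow_left (by omega) 2, hxa⟩
          · refine ⟨a, b, by omega, hb, ?_, ?_, hya⟩
            · calc a ≤ L := haL
                _ = L ^ 1 := (pow_one L).symm
                _ ≤ L ^ 2 := Nat.pow_le_pow_right hL (by norm_num)
            · calc b ≤ L := by omega
                _ = L ^ 1 := (pow_one L).symm
                _ ≤ L ^ 2 := Nat.pow_le_pow_right hL (by norm_num)
        have hB6 : B ≤ L ^ 6 := hBL.trans (Nat.pow_le_pow_right hL (by norm_num))
        have hwn : w ≤ n := by rcases hw with rfl | rfl <;> omega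
        have hcases : w / c ∉ X ∨ w / c ^ 2 ∉ X := by
          by_contra hcon
          push Not at hcon
          obtain ⟨k, hk⟩ := hcw
          have hc0 : 0 < c := by omega
          have hk0 : 0 < k := by
            rcases Nat.eq_zero_or_pos k with h0 | h0
            · rw [h0, mul_zero] at hk; exact absurd hk hw0
            · exact h0
          have e1 : w / c = c * k := by
            rw [hk, show c ^ 2 * k = c * (c * k) by ring, Nat.mul_div_cancel_left _ hc0]
          have e2 : w / c ^ 2 = k := by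
            rw [hk, Nat.mul_div_cancel_left _ (by positivity)]
          rw [e1, e2] at hcon
          refine hX k hcon.2 (c * k) hcon.1 w hwX ?_ ?_ ?_
          · nlinarith
          · rw [hk]; nlinarith
          · rw [hk]; ring
        rcases hcases with hc' | hc'
        · refine ⟨w / c, B, A * c, hu1, hc', huy, (Nat.div_le_self _ _).trans hwn, hB, hB6,
            Nat.mul_pos hA (by omega), ?_, ?_⟩
          · calc A * c ≤ L ^ 2 * L ^ 2 := Nat.mul_le_mul hAL hcL
              _ = L ^ 4 := by ring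
              _ ≤ L ^ 6 := Nat.pow_le_pow_right hL (by norm_num)
          · calc w / c * (A * c) = (w / c * c) * A := by ring
              _ = n * B := by rw [Nat.div_mul_cancel hcw1, hAB]
        · refine ⟨w / c ^ 2, B, A * c ^ 2, hu2, hc', ?_, (Nat.div_le_self _ _).trans hwn, hB, hB6,
            Nat.mul_pos hA (pow_pos (by omega) 2), ?_, ?_⟩
          · refine dvd_trans ?_ huy
            obtain ⟨k, hk⟩ := hcw
            have hc0 : 0 < c := by omega
            have e1 : w / c = c * k := by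
              rw [hk, show c ^ 2 * k = c * (c * k) by ring, Nat.mul_div_cancel_left _ hc0]
            have e2 : w / c ^ 2 = k := by
              rw [hk, Nat.mul_div_cancel_left _ (by positivity)]
            rw [e1, e2]
            exact Dvd.intro_left c rfl
          · calc A * c ^ 2 ≤ L ^ 2 * (L ^ 2) ^ 2 := Nat.mul_le_mul hAL (Nat.pow_le_pow_left hcL 2)
              _ = L ^ 6 := by ring
          · calc w / c ^ 2 * (A * c ^ 2) = (w / c ^ 2 * c ^ 2) * A := by ring
              _ = n * B := by rw [Nat.div_mul_cancel hcw, hAB]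
      obtain ⟨u', B₀, D₀, hu'G, hu'X, hu'y, hu'n, hB0, hB0L, hD0, hD0L, hu'⟩ := hchild
      have hpsi' : psi u' ≤ t := by
        have h1 := psi_dvd_le hy0 hu'y
        have h2 := psi_lt hx0 hyn h
        omega
      obtain ⟨u, huE, B, D, hB, hBL, hD, hDL, huD, hun⟩ := ih (by omega) u' hu'G hu'X hpsi'
      refine ⟨u, huE, B₀ * B, D₀ * D, Nat.mul_pos hB0 hB, ?_, Nat.mul_pos hD0 hD, ?_, ?_,
        hun.trans hu'n⟩
      · rw [pow_succ']
        exact Nat.mul_le_mul hB0L hBL
      · rw [pow_succ']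
        exact Nat.mul_le_mul hD0L hDL
      · calc u * (D₀ * D) = (u * D) * D₀ := by ring
          _ = (u' * D₀) * B := by rw [huD]; ring
          _ = n * (B₀ * B) := by rw [hu']; ring

end Pool.Agent.R326.GP
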