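import Pool.Agent.R326.GP.Count

/-!
# Improving the greedy set below a single bound
-/

set_option autoImplicit false

namespace Pool.Agent.R326.GP

open Finset Filter

lemma fact_two_pow_mul {i m : ℕ} (hm0 : m ≠ 0) (hm : ¬ 2 ∣ m) :
    (2 ^ i * m).factorization 2 = i ∧
      ∀ p, p ≠ 2 → (2 ^ i * m).factorization p = m.factorization p := by
  have h : ∀ p, (2 ^ i * m).factorization p = i * (Nat.factorization 2 p) + m.factorization p := by
    intro p
    rw [Nat.factorization_mul (by positivity) hm0, Nat.factorization_pow]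
    simp
  constructor
  · rw [h, Nat.Prime.factorization_self Nat.prime_two, Nat.factorization_eq_zero_of_not_dvd hm]
    ring
  · intro p hp
    rw [h, Nat.Prime.factorization Nat.prime_two, Finsupp.single_eq_of_ne hp]
    ring

/-- writing a number as power of two times odd -/
lemma exists_odd {n : ℕ} (hn : n ≠ 0) : ∃ i m, n = 2 ^ i * m ∧ ¬ 2 ∣ m ∧ m ≠ 0 := by
  obtain ⟨i, m, h1, h2⟩ := Nat.exists_eq_two_pow_mul_odd hn
  refine ⟨i, m, h2, ?_, ?_⟩
  · rcases h1 with ⟨k, hk⟩
    omega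
  · rintro rfl
    simp at h2
    exact hn h2

/-- the special numbers -/
def Sp (N : ℕ) : Set ℕ := {m | ¬ 2 ∣ m ∧ Squarefree m ∧ 256 * m ≤ N ∧ N < 512 * m}

/-- the improved set -/
def Z (N : ℕ) : Set ℕ := {n | ∃ i m, n = 2 ^ i * m ∧ ¬ 2 ∣ m ∧ m ≠ 0 ∧
  (∀ p, p ≠ 2 → A3 (m.factorization p)) ∧
  ((m ∈ Sp N ∧ (i = 0 ∨ i = 1 ∨ i = 3 ∨ i = 7 ∨ i = 8)) ∨ (m ∉ Sp N ∧ A3 i))}

lemma Z_gpfree (N : ℕ) : GPFree (Z N) := by
  rintro a ⟨i, x, rfl, hx2, hx0, hx, hx'⟩ b ⟨j, y, rfl, hy2, hy0, hy, hy'⟩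
    c ⟨k, z, rfl, hz2, hz0, hz, hz'⟩ hab hbc h
  have ha0 : 2 ^ i * x ≠ 0 := mul_ne_zero (by positivity) hx0
  have hb0 : 2 ^ j * y ≠ 0 := mul_ne_zero (by positivity) hy0
  have hc0 : 2 ^ k * z ≠ 0 := mul_ne_zero (by positivity) hz0
  have hap := fact_ap ha0 hc0 h
  obtain ⟨hx3, hx4⟩ := fact_two_pow_mul (i := i) hx0 hx2
  obtain ⟨hy3, hy4⟩ := fact_two_pow_mul (i := j) hy0 hy2
  obtain ⟨hz3, hz4⟩ := fact_two_pow_mul (i := k) hz0 hz2
  have hodd : ∀ p, p ≠ 2 → x.factorization p = y.factorization p ∧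
      z.factorization p = y.factorization p := by
    intro p hp
    have h1 := hap p
    rw [hx4 p hp, hy4 p hp, hz4 p hp] at h1
    have h2 := A3_ap _ _ _ (hx p hp) (hy p hp) (hz p hp) h1
    omega
  have hxy : x = y := by
    apply Nat.eq_of_factorization_eq hx0 hy0
    intro p
    by_cases hp : p = 2
    · subst hp
      rw [Nat.factorization_eq_zero_of_not_dvd hx2, Nat.factorization_eq_zero_of_not_dvd hy2]
    · exact (hodd p hp).1
  have hzy : z = y := by
    apply Nat.eq_of_factorization_eq hz0 hy0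
    intro p
    by_cases hp : p = 2
    · subst hp
      rw [Nat.factorization_eq_zero_of_not_dvd hz2, Nat.factorization_eq_zero_of_not_dvd hy2]
    · exact (hodd p hp).2
  subst hxy
  subst hzy
  have h2 := hap 2
  rw [hx3, hy3, hz3] at h2
  have hij : i = j := by
    rcases hx' with ⟨hs, hi⟩ | ⟨hs, hi⟩
    · rcases hy' with ⟨_, hj⟩ | ⟨hs', _⟩
      · rcases hz' with ⟨_, hk⟩ | ⟨hs', _⟩
        · omega
        · exact absurd hs hs'
      · exact absurd hs hs'
    · rcases hy' with ⟨hs', _⟩ | ⟨_, hj⟩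
      · exact absurd hs' hs
      · rcases hz' with ⟨hs', _⟩ | ⟨_, hk⟩
        · exact absurd hs' hs
        · exact A3_ap _ _ _ hi hj hk h2
  rw [hij] at hab
  exact lt_irrefl _ hab

lemma A3_two : ¬ A3 2 := by rw [A3_iff]; norm_num
lemma A3_five : ¬ A3 5 := by rw [A3_iff]; norm_num
lemma A3_eight : ¬ A3 8 := by rw [A3_iff]; norm_num
lemma A3_six : ¬ A3 6 := by
  rw [A3_iff]
  norm_num
  exact A3_two
lemma A3_seven : ¬ A3 7 := by
  rw [A3_iff]
  norm_num
  exact A3_two

lemma squarefree_A3 {m : ℕ} (hm : Squarefree m) (p : ℕ) : A3 (m.factorization p) := by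
  have h := hm.natFactorization_le_one p
  interval_cases m.factorization p
  · exact A3_zero
  · exact A3_one

lemma improve (N : ℕ) : cnt G N + cnt (Sp N) N ≤ cnt (Z N) N := by
  classical
  have key : ((Icc 1 N).filter (fun n => n ∈ G)) ∪
      (((Icc 1 N).filter (fun n => n ∈ Sp N)).image (fun m => 128 * m) ∪
      ((Icc 1 N).filter (fun n => n ∈ Sp N)).image (fun m => 256 * m)) ⊆
      ((Icc 1 N).filter (fun n => n ∈ Z N)) ∪
        ((Icc 1 N).filter (fun n => n ∈ Sp N)).image (fun m => 16 * m) := by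
    intro n hn
    have hZ : ∀ m ∈ Sp N, ∀ i, (i = 7 ∨ i = 8) → 2 ^ i * m ∈ Z N := by
      intro m hm i hi
      have hm0 : m ≠ 0 := hm.2.1.ne_zero
      exact ⟨i, m, rfl, hm.1, hm0, fun p _ => squarefree_A3 hm.2.1 p, Or.inl ⟨hm, by omega⟩⟩
    rw [Finset.mem_union] at hn
    rcases hn with hn | hn
    · rw [Finset.mem_filter] at hn
      have hn1 := Finset.mem_Icc.1 hn.1
      obtain ⟨i, m, hnm, hm2, hm0⟩ := exists_odd (by omega : n ≠ 0)
      obtain ⟨h1, h2⟩ := fact_two_pow_mul (i := i) hm0 hm2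
      have hAi : A3 i := by
        have := hn.2.2 2
        rwa [hnm, h1] at this
      have hAm : ∀ p, p ≠ 2 → A3 (m.factorization p) := by
        intro p hp
        have := hn.2.2 p
        rwa [hnm, h2 p hp] at this
      rw [Finset.mem_union]
      by_cases hS : m ∈ Sp N
      · have hi8 : i ≤ 8 := by
          by_contra hcon
          have h3 : 2 ^ 9 ≤ 2 ^ i := Nat.pow_le_pow_right (by norm_num) (by omega)
          have h4 : 2 ^ 9 * m ≤ 2 ^ i * m := Nat.mul_le_mul_right m h3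
          have h5 := hS.2.2.2
          norm_num at h4
          omega
        by_cases hi4 : i = 4
        · right
          rw [Finset.mem_image]
          refine ⟨m, ?_, ?_⟩
          · rw [Finset.mem_filter, Finset.mem_Icc]
            have := hS.2.2.1
            exact ⟨by omega, hS⟩
          · rw [hnm, hi4]
            norm_num
        · left
          rw [Finset.mem_filter]
          refine ⟨hn.1, i, m, hnm, hm2, hm0, hAm, Or.inl ⟨hS, ?_⟩⟩
          have e2 : i ≠ 2 := by rintro rfl; exact A3_two hAi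
          have e5 : i ≠ 5 := by rintro rfl; exact A3_five hAi
          have e6 : i ≠ 6 := by rintro rfl; exact A3_six hAi
          omega
      · left
        rw [Finset.mem_filter]
        exact ⟨hn.1, i, m, hnm, hm2, hm0, hAm, Or.inr ⟨hS, hAi⟩⟩
    · rw [Finset.mem_union]
      left
      rw [Finset.mem_union] at hn
      rcases hn with hn | hn
      · rw [Finset.mem_image] at hn
        obtain ⟨m, hm, rfl⟩ := hn
        rw [Finset.mem_filter, Finset.mem_Icc] at hm
        have h3 := hm.2.2.2.1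
        rw [Finset.mem_filter, Finset.mem_Icc]
        refine ⟨by omega, ?_⟩
        have := hZ m hm.2 7 (Or.inl rfl)
        norm_num at this
        exact this
      · rw [Finset.mem_image] at hn
        obtain ⟨m, hm, rfl⟩ := hn
        rw [Finset.mem_filter, Finset.mem_Icc] at hm
        have h3 := hm.2.2.2.1
        rw [Finset.mem_filter, Finset.mem_Icc]
        refine ⟨by omega, ?_⟩
        have := hZ m hm.2 8 (Or.inr rfl)
        norm_num at this
        exact this
  have hdis1 : Disjoint ((Icc 1 N).filter (fun n => n ∈ G))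
      (((Icc 1 N).filter (fun n => n ∈ Sp N)).image (fun m => 128 * m) ∪
      ((Icc 1 N).filter (fun n => n ∈ Sp N)).image (fun m => 256 * m)) := by
    rw [Finset.disjoint_left]
    intro n hn hn'
    rw [Finset.mem_filter] at hn
    rw [Finset.mem_union] at hn'
    rcases hn' with hn' | hn'
    · rw [Finset.mem_image] at hn'
      obtain ⟨m, hm, rfl⟩ := hn'
      have hS := (Finset.mem_filter.1 hm).2
      obtain ⟨h1, h2⟩ := fact_two_pow_mul (i := 7) hS.2.1.ne_zero hS.1
      have := hn.2.2 2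
      norm_num at h1
      rw [h1] at this
      exact A3_seven this
    · rw [Finset.mem_image] at hn'
      obtain ⟨m, hm, rfl⟩ := hn'
      have hS := (Finset.mem_filter.1 hm).2
      obtain ⟨h1, h2⟩ := fact_two_pow_mul (i := 8) hS.2.1.ne_zero hS.1
      have := hn.2.2 2
      norm_num at h1
      rw [h1] at this
      exact A3_eight this
  have hdis2 : Disjoint (((Icc 1 N).filter (fun n => n ∈ Sp N)).image (fun m => 128 * m))
      (((Icc 1 N).filter (fun n => n ∈ Sp N)).image (fun m => 256 * m)) := by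
    rw [Finset.disjoint_left]
    intro n hn hn'
    rw [Finset.mem_image] at hn hn'
    obtain ⟨m, hm, rfl⟩ := hn
    obtain ⟨m', hm', h⟩ := hn'
    have hS := (Finset.mem_filter.1 hm).2
    apply hS.1
    exact ⟨m', by omega⟩
  have h1 := (Finset.card_le_card key).trans (Finset.card_union_le _ _)
  rw [Finset.card_union_of_disjoint hdis1, Finset.card_union_of_disjoint hdis2] at h1
  rw [Finset.card_image_of_injective _ (mul_right_injective₀ (by norm_num : (128 : ℕ) ≠ 0)),
    Finset.card_image_of_injective _ (mul_right_injective₀ (by norm_num : (256 : ℕ) ≠ 0)),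
    Finset.card_image_of_injective _ (mul_right_injective₀ (by norm_num : (16 : ℕ) ≠ 0))] at h1
  rw [cnt_eq G, cnt_eq (Sp N), cnt_eq (Z N)]
  omega

lemma sum_odd_sq (n : ℕ) : ∑ i ∈ Icc 1 n, (((2 * i + 1 : ℕ) : ℝ) ^ 2)⁻¹ ≤
    1 / 4 - 1 / (4 * ((n : ℝ) + 1)) := by
  induction n with
  | zero => simp
  | succ n ih =>
    rw [Finset.sum_Icc_succ_top (by omega)]
    have h1 : (((2 * (n + 1) + 1 : ℕ) : ℝ) ^ 2)⁻¹ ≤
        1 / (4 * ((n : ℝ) + 1)) - 1 / (4 * (((n + 1 : ℕ) : ℝ) + 1)) := by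
      push_cast
      have h2 : 1 / (4 * ((n : ℝ) + 1)) - 1 / (4 * ((n : ℝ) + 1 + 1)) =
          (4 * ((n : ℝ) + 1) * ((n : ℝ) + 1 + 1))⁻¹ := by
        field_simp
        ring
      rw [h2]
      apply inv_anti₀ (by positivity)
      nlinarith
    linarith

lemma Sp_count (N : ℕ) (hN : 2 ^ 20 ≤ N) : (N : ℝ) / 4096 ≤ cnt (Sp N) N := by
  classical
  set P := N / 512 with hP
  set Q := N / 256 with hQ
  have hPQ : P ≤ Q := by omega
  set I := (Icc 1 (Nat.sqrt Q)).image (fun i => 2 * i + 1) with hI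
  have h1 : Ioc P Q ⊆ ((Icc 1 N).filter (fun n => n ∈ Sp N)) ∪
      ((Ioc P Q).filter (fun z => 2 ∣ z) ∪
      (Ioc P Q).filter (fun z => ∃ a ∈ I, a ^ 2 ∣ z)) := by
    intro m hm
    rw [Finset.mem_union, Finset.mem_union, Finset.mem_filter, Finset.mem_filter,
      Finset.mem_filter]
    have hm1 := Finset.mem_Ioc.1 hm
    by_cases h2 : 2 ∣ m
    · exact Or.inr (Or.inl ⟨hm, h2⟩)
    · by_cases hs : Squarefree m
      · left
        rw [Finset.mem_Icc]
        exact ⟨by omega, h2, hs, by omega, by omega⟩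
      · right
        right
        refine ⟨hm, ?_⟩
        unfold Squarefree at hs
        push Not at hs
        obtain ⟨x, hx1, hx2⟩ := hs
        rw [Nat.isUnit_iff] at hx2
        have hx3 : ¬ 2 ∣ x := fun h => h2 ((h.mul_right x).trans hx1)
        have hx4 : x * x ≤ m := Nat.le_of_dvd (by omega) hx1
        have hx5 : x ≤ Nat.sqrt Q := Nat.le_sqrt.2 (by omega)
        refine ⟨x, ?_, by rw [sq]; exact hx1⟩
        rw [hI, Finset.mem_image]
        refine ⟨x / 2, ?_, ?_⟩
        · rw [Finset.mem_Icc]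
          omega
        · omega
  have h2 := (Finset.card_le_card h1).trans ((Finset.card_union_le _ _).trans
    (Nat.add_le_add_left (Finset.card_union_le _ _) _))
  rw [Nat.card_Ioc, ← cnt_eq] at h2
  have h3 := card_dvd_Ioc (d := 2) (by norm_num) hPQ
  have h4 := sieve hPQ I (by
    intro a ha
    rw [hI, Finset.mem_image] at ha
    obtain ⟨i, _, rfl⟩ := ha
    omega)
  have h5 : ∑ a ∈ I, ((a : ℝ) ^ 2)⁻¹ ≤ 1 / 4 := by
    rw [hI, Finset.sum_image (by intro x _ y _ h; simp only [] at h; omega)]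
    have := sum_odd_sq (Nat.sqrt Q)
    have h6 : (0 : ℝ) ≤ 1 / (4 * ((Nat.sqrt Q : ℝ) + 1)) := by positivity
    linarith
  have h6 : I.card ≤ Nat.sqrt Q := by
    rw [hI]
    refine Finset.card_image_le.trans ?_
    rw [Nat.card_Icc]
    omega
  have h7 : ((Q - P : ℕ) : ℝ) ≤ cnt (Sp N) N + (((Ioc P Q).filter (fun z => 2 ∣ z)).card +
      (((Ioc P Q).filter (fun z => ∃ a ∈ I, a ^ 2 ∣ z)).card : ℝ)) := by exact_mod_cast h2
  rw [Nat.cast_sub hPQ] at h7
  have hPQ' : (0 : ℝ) ≤ (Q : ℝ) - P := by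
    have : (P : ℝ) ≤ Q := by exact_mod_cast hPQ
    linarith
  have h8 : ((Q : ℝ) - P) * (∑ a ∈ I, ((a : ℝ) ^ 2)⁻¹) ≤ ((Q : ℝ) - P) * (1 / 4) :=
    mul_le_mul_of_nonneg_left h5 hPQ'
  have h9 : (I.card : ℝ) ≤ Real.sqrt Q := by
    calc (I.card : ℝ) ≤ (Nat.sqrt Q : ℝ) := by exact_mod_cast h6
      _ ≤ Real.sqrt Q := Real.nat_sqrt_le_real_sqrt
  have h10 : (Q : ℝ) - P ≥ N / 512 - 1 := by
    have e1 : N < 256 * Q + 256 := by omega
    have e2 : 512 * P ≤ N := by omega
    have e1' : (N : ℝ) < 256 * Q + 256 := by exact_mod_cast e1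
    have e2' : 512 * (P : ℝ) ≤ N := by exact_mod_cast e2
    linarith
  have h11 : Real.sqrt Q ≤ N / 16384 := by
    apply Real.sqrt_le_iff.2
    refine ⟨by positivity, ?_⟩
    have e1 : 256 * Q ≤ N := by omega
    have e1' : 256 * (Q : ℝ) ≤ N := by exact_mod_cast e1
    have e2 : (2 : ℝ) ^ 20 ≤ N := by exact_mod_cast hN
    have e3 : (N : ℝ) * (2 : ℝ) ^ 20 ≤ N * N := by nlinarith
    have e4 : ((N : ℝ) / 16384) ^ 2 = N * N / 2 ^ 28 := by ring
    rw [e4, le_div_iff₀ (by positivity)]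
    linarith
  have h12 : (2 : ℝ) ^ 20 ≤ N := by exact_mod_cast hN
  push_cast at h3
  linarith

end Pool.Agent.R326.GP
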